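import Mathlib

namespace Pool.Agent.Results.MP_8ede36_co.Plane
open Set Metric

/-- bounded increasing potential -/
noncomputable def A (v : ℝ) : ℝ := v / (1 + |v|)

lemma A_lt (v : ℝ) : A v < 1 := by
  unfold A
  rw [div_lt_one (by positivity)]
  have := le_abs_self v
  linarith

lemma A_gt (v : ℝ) : -1 < A v := by
  unfold A
  rw [lt_div_iff₀ (by positivity)]
  have := neg_abs_le v
  linarith

lemma A_diff (a b M : ℝ) (hab : a ≤ b) (ha : |a| ≤ M) (hb : |b| ≤ M) :
    (b - a) / (1 + M) ^ 2 ≤ A b - A a := by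
  have hM : 0 ≤ M := (abs_nonneg a).trans ha
  have h1 : 0 < 1 + |a| := by positivity
  have h2 : 0 < 1 + |b| := by positivity
  have key : A b - A a = (b - a + (b * |a| - a * |b|)) / ((1 + |a|) * (1 + |b|)) := by
    unfold A; field_simp; ring
  have hx : 0 ≤ b * |a| - a * |b| := by
    rcases le_total 0 a with h | h
    · rw [abs_of_nonneg h, abs_of_nonneg (h.trans hab)]; nlinarith
    · rcases le_total 0 b with h' | h'
      · rw [abs_of_nonpos h, abs_of_nonneg h']; nlinarith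
      · rw [abs_of_nonpos h, abs_of_nonpos h']; nlinarith
  rw [key]
  have hp : (1 + |a|) * (1 + |b|) ≤ (1 + M) ^ 2 := by
    rw [sq]; gcongr
  calc (b - a) / (1 + M) ^ 2 ≤ (b - a) / ((1 + |a|) * (1 + |b|)) := by
        apply div_le_div_of_nonneg_left (by linarith) (by positivity) hp
    _ ≤ _ := by
        apply div_le_div_of_nonneg_right (by linarith) (by positivity)

lemma A_mono (a b : ℝ) (hab : a ≤ b) : A a ≤ A b := by
  have := A_diff a b (max |a| |b|) hab (le_max_left _ _) (le_max_right _ _)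
  have h : 0 ≤ (b - a) / (1 + max |a| |b|) ^ 2 := div_nonneg (by linarith) (sq_nonneg _)
  linarith

lemma A_step (v ε w : ℝ) (hε : 0 ≤ ε) (h : ε ≤ 1 / (4 * (2 + |v|) ^ 2)) (hw : w ≤ v - 1 + 2 * ε) :
    w + A w ≤ v + A v - 1 := by
  have h0 : 0 ≤ |v| := abs_nonneg v
  have h16 : ε ≤ 1 / 16 := h.trans (by
    apply one_div_le_one_div_of_le (by norm_num); nlinarith)
  have h1 : A w ≤ A (v - 1 / 2) := A_mono _ _ (by linarith)
  have h2 := A_diff (v - 1 / 2) v (|v| + 1) (by linarith)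
    (by have := abs_sub v (1 / 2); rw [abs_of_pos (by norm_num : (0 : ℝ) < 1 / 2)] at this; linarith)
    (by linarith)
  have h3 : (v - (v - 1 / 2)) / (1 + (|v| + 1)) ^ 2 = 2 * (1 / (4 * (2 + |v|) ^ 2)) := by
    have : (1 + (|v| + 1)) = 2 + |v| := by ring
    rw [this]; field_simp; ring
  linarith

section General
variable {E : Type} [NormedAddCommGroup E] [NormedSpace ℝ E]

/-- join distinct points of `V` at distance at most one -/
def gr (V : Set E) : SimpleGraph V where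
  Adj x y := x ≠ y ∧ ‖(x : E) - y‖ ≤ 1
  symm := ⟨fun x y h => ⟨h.1.symm, by rw [norm_sub_rev]; exact h.2⟩⟩
  loopless := ⟨fun x h => h.1 rfl⟩

omit [NormedSpace ℝ E] in
lemma short (V : Set E) (x y : V) (h : ‖(x : E) - y‖ ≤ 1) :
    ∃ w : (gr V).Walk x y, w.length ≤ 1 := by
  by_cases hxy : x = y
  · subst hxy; exact ⟨.nil, by simp⟩
  · exact ⟨.cons (show (gr V).Adj x y from ⟨hxy, h⟩) .nil, by simp⟩

omit [NormedSpace ℝ E] in
lemma lower (V : Set E) (x y : V) (w : (gr V).Walk x y) : ‖(x : E) - y‖ ≤ w.length := by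
  induction w with
  | nil => simp
  | @cons a b c h w ih =>
    have h1 : ‖(a : E) - b‖ ≤ 1 := h.2
    have h2 := norm_sub_le_norm_sub_add_norm_sub (a : E) b c
    simp only [SimpleGraph.Walk.length_cons, Nat.cast_add, Nat.cast_one]
    linarith

lemma upper (V : Set E) (hV : ∀ p : E, ∃ x ∈ V, ‖x - p‖ ≤ 1 / (4 * (3 + ‖p‖) ^ 2)) (y : V) :
    ∀ n : ℕ, ∀ q : V, ‖(q : E) - y‖ + A (‖(q : E) - y‖ - ‖(y : E)‖) ≤ n →
      ∃ w : (gr V).Walk q y, w.length ≤ n + 1 := by
  intro n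
  induction n with
  | zero =>
    intro q hq
    have := A_gt (‖(q : E) - y‖ - ‖(y : E)‖)
    simp only [Nat.cast_zero] at hq
    exact short V q y (by linarith)
  | succ n ih =>
    intro q hq
    by_cases hr : ‖(q : E) - y‖ ≤ 1
    · obtain ⟨w, hw⟩ := short V q y hr
      exact ⟨w, by omega⟩
    push Not at hr
    set r := ‖(q : E) - y‖ with hrdef
    set ε : ℝ := 1 / (4 * (2 + ‖(q : E)‖) ^ 2) with hε
    have hq0 : 0 ≤ ‖(q : E)‖ := norm_nonneg _
    have hε0 : 0 ≤ ε := by positivity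
    have hε1 : ε ≤ 1 / 16 := by
      apply one_div_le_one_div_of_le (by norm_num); nlinarith
    have hr0 : 0 < r := by linarith
    set t : ℝ := (1 - ε) / r with ht
    have ht0 : 0 ≤ t := div_nonneg (by linarith) hr0.le
    have ht1 : t ≤ 1 := by rw [ht, div_le_one hr0]; linarith
    have htr : t * r = 1 - ε := by rw [ht]; field_simp
    set p : E := (q : E) - t • ((q : E) - y) with hp
    have hpq : ‖(q : E) - p‖ = 1 - ε := by
      rw [hp, sub_sub_cancel, norm_smul, Real.norm_of_nonneg ht0, ← hrdef, htr]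
    have hpy : ‖p - y‖ = r - (1 - ε) := by
      have : p - y = (1 - t) • ((q : E) - y) := by rw [hp, sub_smul, one_smul]; abel
      rw [this, norm_smul, Real.norm_of_nonneg (by linarith), ← hrdef, sub_mul, htr, one_mul]
    obtain ⟨x, hxV, hx⟩ := hV p
    have hpn : ‖(q : E)‖ - 1 ≤ ‖p‖ := by
      have := norm_sub_norm_le (q : E) p
      linarith
    have hxε : ‖x - p‖ ≤ ε := hx.trans (by
      apply one_div_le_one_div_of_le (by positivity)
      have : 2 + ‖(q : E)‖ ≤ 3 + ‖p‖ := by linarith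
      gcongr)
    have hqx : ‖(q : E) - x‖ ≤ 1 := by
      have := norm_sub_le_norm_sub_add_norm_sub (q : E) p x
      rw [norm_sub_rev p x] at this
      linarith
    have hxy : ‖x - y‖ ≤ r - 1 + 2 * ε := by
      have := norm_sub_le_norm_sub_add_norm_sub x p (y : E)
      linarith
    have hv : |r - ‖(y : E)‖| ≤ ‖(q : E)‖ := by
      have := abs_norm_sub_norm_le ((q : E) - y) (-(y : E))
      rw [norm_neg, ← hrdef] at this
      simpa using this
    have hεv : ε ≤ 1 / (4 * (2 + |r - ‖(y : E)‖|) ^ 2) := by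
      apply one_div_le_one_div_of_le (by positivity)
      gcongr
    have hstep := A_step (r - ‖(y : E)‖) ε (‖x - y‖ - ‖(y : E)‖) hε0 hεv (by linarith)
    obtain ⟨w2, hw2⟩ := ih ⟨x, hxV⟩ (by push_cast at hq; simp only; linarith)
    obtain ⟨w1, hw1⟩ := short V q ⟨x, hxV⟩ hqx
    exact ⟨w1.append w2, by rw [SimpleGraph.Walk.length_append]; omega⟩

lemma upper' (V : Set E) (hV : ∀ p : E, ∃ x ∈ V, ‖x - p‖ ≤ 1 / (4 * (3 + ‖p‖) ^ 2)) (x y : V) :
    ∃ w : (gr V).Walk x y, (w.length : ℝ) ≤ ‖(x : E) - y‖ + 3 := by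
  obtain ⟨w, hw⟩ := upper V hV y (⌈‖(x : E) - y‖⌉₊ + 1) x (by
    have := A_lt (‖(x : E) - y‖ - ‖(y : E)‖)
    have := Nat.le_ceil ‖(x : E) - y‖
    push_cast; linarith)
  refine ⟨w, ?_⟩
  have h1 : (w.length : ℝ) ≤ ⌈‖(x : E) - y‖⌉₊ + 1 + 1 := by exact_mod_cast hw
  have := Nat.ceil_lt_add_one (norm_nonneg ((x : E) - y))
  linarith

lemma exists_net [ProperSpace E] (e : E) (he : ‖e‖ = 1) :
    ∃ V : Set E, (∀ R : ℝ, (V ∩ closedBall 0 R).Finite) ∧
      (∀ p : E, ∃ x ∈ V, ‖x - p‖ ≤ 1 / (4 * (3 + ‖p‖) ^ 2)) ∧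
      ∀ k j : ℕ, j ≤ k → ((k : ℝ) + j / (k + 1)) • e ∈ V := by
  have hc : ∀ k : ℕ, IsCompact (closedBall (0 : E) (k + 1) ∩ {x | (k : ℝ) ≤ ‖x‖}) := fun k =>
    (isCompact_closedBall _ _).inter_right (isClosed_le continuous_const continuous_norm)
  have hpos : ∀ k : ℕ, (0 : ℝ) < 1 / (4 * (4 + k) ^ 2) := fun k => by positivity
  choose T hT1 hT2 hT3 using fun k => finite_cover_balls_of_compact (hc k) (hpos k)
  let S : ℕ → Set E := fun k => T k ∪ (fun j : ℕ => ((k : ℝ) + j / (k + 1)) • e) '' Iic k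
  have hS1 : ∀ k, (S k).Finite := fun k => (hT2 k).union ((finite_Iic k).image _)
  have hS2 : ∀ k, ∀ x ∈ S k, (k : ℝ) ≤ ‖x‖ := by
    rintro k x (hx | ⟨j, -, rfl⟩)
    · exact (hT1 k hx).2
    · have h0 : (0 : ℝ) ≤ j / (k + 1) := by positivity
      simp only
      rw [norm_smul, he, mul_one, Real.norm_of_nonneg (by positivity)]
      linarith
  refine ⟨⋃ k, S k, fun R => ?_, fun p => ?_, fun k j hj => ?_⟩
  · refine ((finite_Iic ⌈R⌉₊).biUnion fun k _ => hS1 k).subset ?_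
    rintro x ⟨hx, hR⟩
    obtain ⟨k, hk⟩ := mem_iUnion.1 hx
    refine mem_biUnion (show k ∈ Iic ⌈R⌉₊ from ?_) hk
    have h1 := hS2 k x hk
    rw [mem_closedBall_zero_iff] at hR
    have := Nat.le_ceil R
    have : (k : ℝ) ≤ ⌈R⌉₊ := by linarith
    exact_mod_cast this
  · have h1 := Nat.floor_le (norm_nonneg p)
    have h2 := Nat.lt_floor_add_one ‖p‖
    have hp : p ∈ closedBall (0 : E) (⌊‖p‖⌋₊ + 1) ∩ {x | (⌊‖p‖⌋₊ : ℝ) ≤ ‖x‖} :=
      ⟨mem_closedBall_zero_iff.2 h2.le, h1⟩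
    obtain ⟨x, hx, hpx⟩ := mem_iUnion₂.1 (hT3 _ hp)
    refine ⟨x, mem_iUnion.2 ⟨_, Or.inl hx⟩, ?_⟩
    rw [mem_ball, dist_comm, dist_eq_norm] at hpx
    refine hpx.le.trans ?_
    apply one_div_le_one_div_of_le (by positivity)
    have : 3 + ‖p‖ ≤ 4 + (⌊‖p‖⌋₊ : ℝ) := by linarith
    gcongr
  · exact mem_iUnion.2 ⟨k, Or.inr ⟨j, hj, rfl⟩⟩

end General

theorem result :
    ∃ (V : Type) (G : SimpleGraph V), G.Connected ∧ (∀ v, (G.neighborSet v).Finite) ∧
      (∀ M : ℕ, ∃ v, M ≤ (G.neighborSet v).ncard) ∧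
      ∃ (f : V → EuclideanSpace ℝ (Fin 2)) (C : ℝ), 0 < C ∧
        (∀ x y, |‖f x - f y‖ - (G.dist x y : ℝ)| < C) ∧ ∀ p, ∃ x, ‖f x - p‖ < C := by
  let e : EuclideanSpace ℝ (Fin 2) := EuclideanSpace.single 0 1
  have he : ‖e‖ = 1 := by simp [e]
  obtain ⟨V, hV1, hV2, hV3⟩ := exists_net e he
  have hne : Nonempty V := ⟨⟨_, hV3 0 0 le_rfl⟩⟩
  have hconn : (gr V).Connected := ⟨fun x y => by
    obtain ⟨w, -⟩ := upper' V hV2 x y
    exact ⟨w⟩⟩
  have hfin : ∀ v, ((gr V).neighborSet v).Finite := fun v => by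
    refine Finite.of_finite_image (f := Subtype.val) ((hV1 (‖(v : EuclideanSpace ℝ (Fin 2))‖ + 1)).subset ?_)
      Subtype.val_injective.injOn
    rintro _ ⟨x, hx, rfl⟩
    refine ⟨x.2, mem_closedBall_zero_iff.2 ?_⟩
    have h1 : ‖(v : EuclideanSpace ℝ (Fin 2)) - x‖ ≤ 1 := hx.2
    have := norm_sub_norm_le (x : EuclideanSpace ℝ (Fin 2)) v
    rw [norm_sub_rev] at this
    linarith
  refine ⟨V, gr V, hconn, hfin, fun M => ?_, Subtype.val, 4, by norm_num, fun x y => ?_, fun p => ?_⟩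
  · let g : Fin M → V := fun j => ⟨_, hV3 M (j + 1) j.2⟩
    have hM : (0 : ℝ) < M + 1 := by positivity
    have hdiff : ∀ a b : ℕ, ‖((M : ℝ) + a / (M + 1)) • e - ((M : ℝ) + b / (M + 1)) • e‖
        = |(a : ℝ) - b| / (M + 1) := fun a b => by
      rw [← sub_smul, norm_smul, he, mul_one, Real.norm_eq_abs,
        show ((M : ℝ) + a / (M + 1)) - ((M : ℝ) + b / (M + 1)) = (a - b) / (M + 1) by ring,
        abs_div, abs_of_pos hM]
    have hinj : ∀ a b : ℕ, ((M : ℝ) + a / (M + 1)) • e = ((M : ℝ) + b / (M + 1)) • e → a = b :=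
      fun a b h => by
        have := hdiff a b
        rw [h, sub_self, norm_zero, eq_comm, div_eq_zero_iff, abs_eq_zero, sub_eq_zero] at this
        rcases this with h | h
        · exact_mod_cast h
        · linarith
    refine ⟨⟨_, hV3 M 0 (Nat.zero_le _)⟩, ?_⟩
    have hg : Function.Injective g := fun a b h => by
      have := hinj _ _ (congrArg Subtype.val h)
      exact Fin.ext (by omega)
    have hsub : range g ⊆ (gr V).neighborSet ⟨_, hV3 M 0 (Nat.zero_le _)⟩ := by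
      rintro _ ⟨j, rfl⟩
      refine ⟨fun h => ?_, ?_⟩
      · have := hinj _ _ (congrArg Subtype.val h)
        omega
      · have := hdiff 0 (j + 1)
        simp only [g]
        rw [this, div_le_one hM, abs_le]
        have : (j : ℝ) < M := by exact_mod_cast j.2
        have : (0 : ℝ) ≤ j := by positivity
        push_cast
        constructor <;> linarith
    have := ncard_le_ncard hsub (hfin _)
    rwa [ncard_range_of_injective hg, Nat.card_eq_fintype_card, Fintype.card_fin] at this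
  · obtain ⟨w, hw⟩ := upper' V hV2 x y
    obtain ⟨w', hw'⟩ := hconn.exists_walk_length_eq_dist x y
    have h1 := lower V x y w'
    have h2 : ((gr V).dist x y : ℝ) ≤ w.length := by exact_mod_cast SimpleGraph.dist_le w
    rw [hw'] at h1
    rw [abs_lt]
    constructor <;> linarith
  · obtain ⟨x, hx, h⟩ := hV2 p
    refine ⟨⟨x, hx⟩, h.trans_lt ?_⟩
    rw [div_lt_iff₀ (by positivity)]
    nlinarith [norm_nonneg p]

end Pool.Agent.Results.MP_8ede36_co.Plane
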